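import Mathlib.LinearAlgebra.Basis.Prod
import Mathlib.LinearAlgebra.Projection
import Mathlib.LinearAlgebra.Dimension.Free
import Mathlib.LinearAlgebra.FiniteDimensional.Defs
import Mathlib.Algebra.Module.ZMod
import Mathlib.Algebra.Field.ZMod
import Mathlib.Tactic.LinearCombination
import Mathlib.Tactic.Module

/-! Sign changes of coordinates. -/

namespace Pool.Agent.SQO

open Function

variable {F : Type*} [Field F]

theorem sgn_ex (h2 : (2 : F) ≠ 0) {d : ℕ} (g : (Fin d → F) →ₗ[F] (Fin d → F)) (hg : Injective g) :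
    ∃ e : Fin d → ℤˣ, ∀ v, g v = e • v → v = 0 := by
  suffices k : ∀ S : Finset (Fin d), ∃ e : Fin d → ℤˣ, ∀ v,
      (∀ i, g v i = if i ∈ S then e i • v i else 0) → v = 0 from
    (k Finset.univ).imp fun e he v hv => he v fun i => by simp [hv]
  intro S
  induction S using Finset.induction_on with
  | empty => exact ⟨1, fun v hv => hg (by rw [map_zero]; exact funext fun i => by simpa using hv i)⟩
  | insert a S ha ih =>
    obtain ⟨e, he⟩ := ih
    by_contra q
    have k : ∀ c : ℤˣ, ∃ v, v a ≠ 0 ∧ g v a = c • v a ∧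
        ∀ i ≠ a, g v i = if i ∈ S then e i • v i else 0 := fun c => by
      obtain ⟨v, hv⟩ := not_forall.1 (not_exists.1 q (update e a c))
      obtain ⟨h1, h3⟩ := Classical.not_imp.1 hv
      have e1 : g v a = c • v a := by simpa using h1 a
      have e2 : ∀ i ≠ a, g v i = if i ∈ S then e i • v i else 0 := fun i hi => by
        simpa [hi] using h1 i
      refine ⟨v, fun e0 => h3 (he v fun i => ?_), e1, e2⟩
      by_cases hi : i = a
      · simp [hi, e1, e0]
      · exact e2 i hi
    obtain ⟨u, u1, u2, u3⟩ := k 1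
    obtain ⟨w, w1, w2, w3⟩ := k (-1)
    have := congrFun (he (w a • u + u a • w) fun i => ?_) a
    · simp only [Pi.add_apply, Pi.smul_apply, smul_eq_mul, Pi.zero_apply] at this
      exact mul_ne_zero h2 (mul_ne_zero u1 w1) (by linear_combination this)
    · simp only [map_add, map_smul, Pi.add_apply, Pi.smul_apply, smul_eq_mul]
      by_cases hi : i = a
      · simp [hi, ha, u2, w2, mul_comm]
      · rw [u3 i hi, w3 i hi]
        split_ifs <;> simp [mul_smul_comm]

theorem diag (h2 : (2 : F) ≠ 0) {V : Type*} [AddCommGroup V] [Module F V] [FiniteDimensional F V]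
    (T : V →ₗ[F] V) (hT : ∀ v, T (T v) = v) :
    ∃ (d : ℕ) (e : V ≃ₗ[F] (Fin d → F)) (σ : Fin d → ℤˣ), ∀ v, e (T v) = σ • e v := by
  have c : IsCompl (LinearMap.ker (T - 1)) (LinearMap.ker (T + 1)) := by
    refine ⟨Submodule.disjoint_def.2 fun v h1 h3 => ?_, codisjoint_iff.2 (eq_top_iff.2 fun v _ => ?_)⟩
    · simp only [LinearMap.mem_ker, LinearMap.sub_apply, LinearMap.add_apply,
        Module.End.one_apply] at h1 h3
      exact (smul_eq_zero.1 (by linear_combination (norm := module) h3 - h1)).resolve_left h2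
    · refine Submodule.mem_sup.2 ⟨(2 : F)⁻¹ • (v + T v), by simp [hT, add_comm],
        (2 : F)⁻¹ • (v - T v), by simp [hT], ?_⟩
      rw [← smul_add, add_add_sub_cancel, ← two_smul F, smul_smul, inv_mul_cancel₀ h2, one_smul]
  let b := (((Module.finBasis F _).prod (Module.finBasis F _)).map
    (Submodule.prodEquivOfIsCompl _ _ c)).reindex finSumFinEquiv
  have k : ∀ i, ∃ s : ℤˣ, T (b i) = s • b i := fun i => by
    obtain ⟨j, rfl⟩ := finSumFinEquiv.surjective i
    rcases j with j | j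
    · exact ⟨1, by simpa [b] using sub_eq_zero.1 (Module.finBasis F (LinearMap.ker (T - 1)) j).2⟩
    · exact ⟨-1, by simpa [b] using
        add_eq_zero_iff_eq_neg.1 (Module.finBasis F (LinearMap.ker (T + 1)) j).2⟩
  choose σ hσ using k
  refine ⟨_, b.equivFun, σ, fun v => funext fun i => ?_⟩
  refine LinearMap.congr_fun (b.ext (f₁ := b.coord i ∘ₗ T) (f₂ := σ i • b.coord i) fun j => ?_) v
  by_cases e : j = i
  · simp [hσ, e, Units.smul_def]
  · simp [hσ, e, Units.smul_def]

theorem coords0 {V : Type*} [AddCommGroup V] [Finite V] {p : ℕ} [Fact p.Prime] [Module (ZMod p) V]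
    (h2 : (2 : ZMod p) ≠ 0) (T : V →+ V) (hT : ∀ v, T (T v) = v) :
    ∃ (d : ℕ) (e : V ≃+ (Fin d → ZMod p)) (σ : Fin d → ℤˣ), (∀ v, e (T v) = σ • e v) ∧
      ∀ g : V →+ V, Injective g → ∃ ε : Fin d → ℤˣ, ∀ v, e (g v) = ε • e v → v = 0 := by
  have : FiniteDimensional (ZMod p) V := Module.Finite.of_finite
  obtain ⟨d, e, σ, hσ⟩ := diag h2 (T.toZModLinearMap p) hT
  refine ⟨d, e.toAddEquiv, σ, hσ, fun g hg => ?_⟩
  obtain ⟨ε, hε⟩ := sgn_ex h2 (e.toLinearMap ∘ₗ g.toZModLinearMap p ∘ₗ e.symm.toLinearMap)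
    (e.injective.comp (hg.comp e.symm.injective))
  exact ⟨ε, fun v hv => e.injective ((hε (e v) (by simpa using hv)).trans (map_zero e).symm)⟩

end Pool.Agent.SQO
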