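import Pool.Agent.MP_f56020_al.O1.Zig
import Pool.Agent.MP_f56020_al.O1.Lin
import Mathlib.GroupTheory.Perm.Cycle.Type

/-! Lifting a sequencing over a minimal normal subgroup of odd order. -/

namespace Pool.Agent.SQO

open Multiset Function Pool.Agent.SQ

variable {G Q : Type*} [Group G] [Finite G] [Group Q]

omit [Finite G] in
theorem sec [Finite Q] (φ : G →* Q) (hφ : Surjective φ) (ho : Odd (Nat.card φ.ker)) :
    ∃ s : Q → G, (∀ q, φ (s q) = q) ∧ ∀ q, s q⁻¹ = (s q)⁻¹ := by
  choose σ hσ using hφ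
  obtain ⟨e, he⟩ := exists_injective_nat Q
  obtain ⟨k, hk⟩ := ho
  refine ⟨fun q => if e q < e q⁻¹ then σ q else if e q⁻¹ < e q then (σ q⁻¹)⁻¹ else σ q ^ (2 * k + 1),
    fun q => ?_, fun q => ?_⟩
  · beta_reduce
    split_ifs with h1 h2
    · exact hσ q
    · simp [hσ]
    · have e1 : q * q = 1 := mul_eq_one_iff_eq_inv.2 (he (by omega))
      rw [map_pow, hσ, pow_succ, pow_mul, sq, e1, one_pow, one_mul]
  · simp only [inv_inv]
    rcases lt_trichotomy (e q) (e q⁻¹) with h | h | h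
    · simp [h, h.not_gt]
    · have e1 : q = q⁻¹ := he h
      have e2 : σ q * σ q ∈ φ.ker := by
        rw [MonoidHom.mem_ker, map_mul, hσ, mul_eq_one_iff_eq_inv.2 e1]
      have e3 := congrArg Subtype.val (pow_card_eq_one' (x := (⟨_, e2⟩ : φ.ker)))
      rw [hk, Subgroup.coe_pow, Subgroup.coe_mk, ← sq, ← pow_mul, two_mul (2 * k + 1),
        pow_add] at e3
      simp only [← e1, lt_irrefl, if_false]
      exact mul_eq_one_iff_eq_inv.1 e3
    · simp [h, h.not_gt]

theorem coords {K : Subgroup G} [K.Normal] (hc : Cm K) {p : ℕ} (hp : p.Prime) (p2 : p ≠ 2)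
    (he : ∀ v : K, v ^ p = 1) {t : G} (ht : t * t = 1) :
    ∃ (d : ℕ) (E : K ≃* Multiplicative (Fin d → ZMod p)) (σ : Fin d → ℤˣ),
      (∀ v, (E (MulAut.conjNormal t⁻¹ v)).toAdd = σ • (E v).toAdd) ∧ ∀ g : G, ∃ ε : Fin d → ℤˣ,
        ∀ v, (E (MulAut.conjNormal g⁻¹ v)).toAdd = ε • (E v).toAdd → v = 1 := by
  have : Fact p.Prime := ⟨hp⟩
  let _ : CommGroup K := { (inferInstance : Group K) with mul_comm := fun a b => hc a b }
  let _ : Module (ZMod p) (Additive K) := AddCommGroup.zmodModule fun x => he x.toMul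
  have h2 : (2 : ZMod p) ≠ 0 := fun e => p2 ((Nat.prime_dvd_prime_iff_eq hp Nat.prime_two).1
    ((ZMod.natCast_eq_zero_iff 2 p).1 (by exact_mod_cast e)))
  let c : G → Additive K →+ Additive K := fun g =>
    MonoidHom.toAdditive (MulAut.conjNormal g⁻¹ : MulAut K).toMonoidHom
  obtain ⟨d, e, σ, h1, h3⟩ := coords0 h2 (c t) fun v => by
    change MulAut.conjNormal t⁻¹ (MulAut.conjNormal t⁻¹ v.toMul) = v.toMul
    rw [← MulAut.mul_apply, ← map_mul, ← mul_inv_rev, ht, inv_one, map_one, MulAut.one_apply]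
  exact ⟨d, AddEquiv.toMultiplicativeRight e, σ, fun v => h1 v, fun g =>
    h3 (c g) (MulAut.conjNormal g⁻¹ : MulAut K).injective⟩

theorem signs [Finite Q] (h4 : 4 ∣ Nat.card Q) {t : Q} (t1 : t ≠ 1) (t2 : t * t = 1) {E : Type*}
    [CommGroup E] (h2 : ∀ e : E, e * e = 1) {σ : E} {R : Q → E → Prop} (h0 : ∀ q, ∃ e, R q e)
    (h1 : ∀ q e, R q e → R (q * t) (σ * e)) :
    ∃ ε : Q → E, (∀ q, R q (ε q)) ∧ ((al Q).map ε).prod = 1 := by
  classical
  have := Fintype.ofFinite Q
  choose D hD using h0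
  obtain ⟨e, he⟩ := exists_injective_nat Q
  have tt : ∀ q, q * t * t = q := fun q => by rw [mul_assoc, t2, mul_one]
  have ne : ∀ q, e (q * t) ≠ e q := fun q c => t1 (mul_eq_left.1 (he c))
  have k1 : ∏ q, (if e q < e (q * t) then σ * D q else σ * D (q * t)) = 1 :=
    Finset.prod_involution (fun q _ => q * t) (fun q _ => by
      have := ne q
      rw [tt]
      split_ifs <;> first | omega | exact h2 _) (fun q _ _ c => ne q (congrArg e c))
      (fun _ _ => Finset.mem_univ _) fun q _ => tt q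
  have k2 : ∑ q, (if e q < e (q * t) then (1 : ℤ) else -1) = 0 :=
    Finset.sum_involution (fun q _ => q * t) (fun q _ => by
      have := ne q
      rw [tt]
      split_ifs <;> omega) (fun q _ _ c => ne q (congrArg e c))
      (fun _ _ => Finset.mem_univ _) fun q _ => tt q
  have k3 := Finset.card_filter_add_card_filter_not (s := Finset.univ) fun q => e q < e (q * t)
  rw [Finset.sum_ite, Finset.sum_const, Finset.sum_const, nsmul_eq_mul, nsmul_eq_mul] at k2
  rw [Finset.card_univ, ← Nat.card_eq_fintype_card] at k3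
  obtain ⟨m, hm⟩ : ∃ m, (Finset.univ.filter fun q => e q < e (q * t)).card = 2 * m :=
    ⟨Nat.card Q / 4, by omega⟩
  refine ⟨fun q => if e q < e (q * t) then D q else σ * D (q * t), fun q => ?_, ?_⟩
  · beta_reduce
    split_ifs
    · exact hD q
    · simpa only [tt] using h1 _ _ (hD (q * t))
  · rw [Finset.prod_ite, Finset.prod_mul_distrib, Finset.prod_const, hm, pow_mul, sq, h2, one_pow,
      one_mul, ← Finset.prod_ite] at k1
    rw [← k1, show al Q = Finset.univ.val from (eq_st Finset.univ.nodup (by simp)).symm]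
    rfl

theorem lift1 [Finite Q] (φ : G →* Q) (hφ : Surjective φ) (hc : Cm φ.ker) {p : ℕ} (hp : p.Prime)
    (p2 : p ≠ 2) (he : ∀ v : φ.ker, v ^ p = 1) (ho : Odd (Nat.card φ.ker)) (h4 : 4 ∣ Nat.card Q)
    (h : SG Q) : SG G := by
  obtain ⟨s, hs, hs'⟩ := sec φ hφ ho
  obtain ⟨t, ht⟩ := exists_prime_orderOf_dvd_card' (G := Q) 2 (dvd_trans (by norm_num) h4)
  have t2 : t * t = 1 := by rw [← sq, ← ht, pow_orderOf_eq_one]
  have t3 : s t * s t = 1 := by
    rw [mul_eq_one_iff_eq_inv, ← hs', ← mul_eq_one_iff_eq_inv.1 t2]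
  obtain ⟨d, E, σ, h1, h2⟩ := coords hc hp p2 he t3
  obtain ⟨k, rfl⟩ := hp.odd_of_ne_two p2
  have cj : ∀ g g' : G, φ g' = φ g → ∀ v : φ.ker,
      MulAut.conjNormal g'⁻¹ v = MulAut.conjNormal g⁻¹ v := fun g g' e v => Subtype.ext (by
    have e1 := congrArg Subtype.val (hc ⟨g' * g⁻¹, by simp [MonoidHom.mem_ker, e]⟩ v)
    simp only [Subgroup.coe_mul, MulAut.conjNormal_apply] at e1 ⊢
    calc _ = g'⁻¹ * (v * (g' * g⁻¹)) * g := by group
      _ = _ := by rw [← e1]; group)
  have sq1 : ∀ e : Fin d → ℤˣ, e * e = 1 := fun e => funext fun i => Int.units_mul_self _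
  obtain ⟨ε, e1, e2⟩ := signs h4 (fun c => by simp [c] at ht) t2 sq1 (σ := σ) (R := fun q ε => ∀ v,
    (E (MulAut.conjNormal (s q)⁻¹ v)).toAdd = ε • (E v).toAdd → v = 1) (fun q => h2 _)
    fun q e a v hv => a v (by
      rw [cj (s q * s t) _ (by simp [hs]), mul_inv_rev, map_mul, MulAut.mul_apply, h1,
        mul_smul] at hv
      exact smul_left_cancel σ hv)
  let ρ : (Fin d → ℤˣ) →* Equiv.Perm φ.ker :=
    { toFun := fun e => (E.toEquiv.trans Multiplicative.toAdd).symm.permCongr (MulAction.toPerm e)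
      map_one' := by ext; simp
      map_mul' := fun a b => by ext; simp [mul_smul] }
  have hρ : ∀ e v, (E (ρ e v)).toAdd = e • (E v).toAdd := fun e v => by simp [ρ]
  refine zig φ (par := fun v => chess k (E v).toAdd) (SP.equiv E.symm (by simpa using sp_cube hp d))
    hs hs' ρ (fun e v => by rw [hρ, chess_smul]) sq1 (ε := ε) (fun q v w e => ?_) (fun v => ?_) h
  · refine (mul_inv_eq_one.1 (e1 q _ ?_)).symm
    have : MulAut.conjNormal (s q)⁻¹ (w * v⁻¹) = ρ (ε q) w * (ρ (ε q) v)⁻¹ := Subtype.ext (by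
      simp only [lab] at e
      simp only [Subgroup.coe_mul, Subgroup.coe_inv, MulAut.conjNormal_apply]
      rw [eq_mul_inv_iff_mul_eq]
      calc _ = (s q)⁻¹ * w * ((v : G)⁻¹ * s q * ρ (ε q) v) := by group
        _ = _ := by rw [e]; group)
    rw [this]
    simp [hρ, smul_add]
  · have : ε 1 = -1 := funext fun i => (Int.units_eq_one_or _).resolve_left fun c => by
      have : Fact (2 * k + 1).Prime := ⟨hp⟩
      have := e1 1 (E.symm (Multiplicative.ofAdd (Pi.single i 1))) (by
        rw [cj 1 _ (by simp [hs])]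
        funext j
        by_cases q : j = i <;> simp [q, c])
      simpa using congrFun (congrArg (fun v => (E v).toAdd) this) i
    rw [← one_add_nz, Multiset.map_add, prod_add, map_singleton, prod_singleton, this,
      neg_one_mul, neg_eq_iff_eq_neg] at e2
    refine E.injective (Multiplicative.toAdd.injective ?_)
    rw [hρ, e2]
    funext j
    simp

theorem SG.of_bij [Finite Q] (φ : G →* Q) (hφ : Bijective φ) (h : SG Q) : SG G := by
  obtain ⟨x, y, V, p, hV⟩ := h
  let e := (MulEquiv.ofBijective φ hφ).symm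
  refine ⟨_, _, _, (p.hom e.toMonoidHom).cast rfl (map_st e.injective fun b =>
    ⟨fun h => ⟨e.symm b, by simpa using h, by simp⟩, ?_⟩), ?_⟩
  · rintro ⟨a, ha, rfl⟩
    simpa using ha
  · rw [← map_singleton, ← Multiset.map_add, hV]
    exact map_st e.injective fun b => by simpa using e.surjective b

omit [Finite G] in
theorem cm_min {K : Subgroup G} [K.Normal] [Group.IsSolvable K]
    (hm : ∀ M : Subgroup G, M.Normal → M ≤ K → M = ⊥ ∨ M = K) : Cm K := by
  rcases subsingleton_or_nontrivial K with c | c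
  · exact fun a b => Subsingleton.elim _ _
  rcases hm ⁅K, K⁆ inferInstance (Subgroup.commutator_le_left K K) with q | q
  · exact fun a b => Subtype.ext ((Subgroup.commutator_eq_bot_iff_le_centralizer.1 q b.2) a a.2)
  · refine absurd ?_ (Group.IsSolvable.commutator_lt_top_of_nontrivial K).ne
    refine Subgroup.map_injective K.subtype_injective ?_
    rw [Subgroup.map_subtype_commutator, q, ← MonoidHom.range_eq_map, K.range_subtype]

theorem exp_min {K : Subgroup G} [hK : K.Normal] (ho : Odd (Nat.card K)) (hc : Cm K)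
    (hm : ∀ M : Subgroup G, M.Normal → M ≤ K → M = ⊥ ∨ M = K) :
    ∃ p : ℕ, p.Prime ∧ p ≠ 2 ∧ ∀ v : K, v ^ p = 1 := by
  rcases subsingleton_or_nontrivial K with c | c
  · exact ⟨3, Nat.prime_three, by omega, fun v => Subsingleton.elim _ _⟩
  have hp := Nat.minFac_prime (Finite.one_lt_card (α := K)).ne'
  obtain ⟨x, hx⟩ := exists_prime_orderOf_dvd_card' (G := K) _ (hp := ⟨hp⟩) (Nat.minFac_dvd _)
  refine ⟨_, hp, fun e => ?_, fun v => Subtype.ext ?_⟩
  · exact Nat.not_even_iff_odd.2 ho (even_iff_two_dvd.2 (e ▸ Nat.minFac_dvd _))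
  generalize (Nat.card K).minFac = p at hp hx
  let M : Subgroup G :=
    { carrier := {w | w ∈ K ∧ w ^ p = 1}
      one_mem' := ⟨one_mem _, one_pow _⟩
      mul_mem' := fun {a b} ha hb => ⟨mul_mem ha.1 hb.1, by
        rw [Commute.mul_pow (congrArg Subtype.val (hc ⟨a, ha.1⟩ ⟨b, hb.1⟩)), ha.2, hb.2, mul_one]⟩
      inv_mem' := fun {a} ha => ⟨inv_mem ha.1, by rw [inv_pow, ha.2, inv_one]⟩ }
  rcases hm M ⟨fun w hw g => ⟨hK.conj_mem w hw.1 g, by rw [conj_pow, hw.2]; simp⟩⟩
    (fun w hw => hw.1) with q | q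
  · have : (x : G) ∈ M := ⟨x.2, by rw [← Subgroup.coe_pow, ← hx, pow_orderOf_eq_one]; rfl⟩
    rw [q, Subgroup.mem_bot, OneMemClass.coe_eq_one] at this
    rw [this, orderOf_one] at hx
    exact absurd hx hp.one_lt.ne
  · exact (q.ge v.2).2

theorem lift (N : Subgroup G) [N.Normal] [Group.IsSolvable N] (ho : Odd (Nat.card N))
    (h4 : 4 ∣ Nat.card G) (h : SG (G ⧸ N)) : SG G := by
  suffices k : ∀ (B : Subgroup G) [B.Normal], B ≤ N → SG (G ⧸ B) from
    SG.of_bij (QuotientGroup.mk' ⊥) ⟨(MonoidHom.ker_eq_bot_iff _).1 (QuotientGroup.ker_mk' ⊥),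
      QuotientGroup.mk'_surjective ⊥⟩ (k ⊥ bot_le)
  intro B
  induction B using WellFoundedGT.induction with
  | ind B ih =>
    intro nB hB
    rcases hB.eq_or_lt with rfl | hB'
    · exact h
    obtain ⟨A, ⟨k1, k2, k3⟩, k4⟩ := (wellFounded_lt (α := Subgroup G)).has_min
      {M | M.Normal ∧ M ≤ N ∧ B < M} ⟨N, inferInstance, le_rfl, hB'⟩
    let π := QuotientGroup.mk' B
    have sπ : Surjective π := QuotientGroup.mk'_surjective B
    let φ := QuotientGroup.map B A (MonoidHom.id G) k3.le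
    have ek : φ.ker = A.map π := QuotientGroup.ker_map B A (MonoidHom.id G) k3.le
    have := Group.isSolvable_of_isSolvable_injective (Subgroup.inclusion_injective k2)
    have := Group.isSolvable_of_surjective (π.subgroupMap_surjective A)
    have := k1.map π sπ
    have oA := ho.of_dvd_nat (Subgroup.card_dvd_of_le k2)
    have oK : Odd (Nat.card (A.map π)) := oA.of_dvd_nat (Subgroup.card_map_dvd _ _)
    have hm : ∀ M : Subgroup (G ⧸ B), M.Normal → M ≤ A.map π → M = ⊥ ∨ M = A.map π :=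
      fun M m1 m2 => by
        have m3 : M.comap π ≤ A := (Subgroup.comap_mono m2).trans (by
          rw [QuotientGroup.comap_map_mk', sup_eq_right.2 k3.le])
        rw [← Subgroup.map_comap_eq_self_of_surjective sπ M]
        refine (QuotientGroup.le_comap_mk' B M).eq_or_lt.imp (fun e => ?_) fun e => ?_
        · rw [← e, QuotientGroup.map_mk'_self]
        · rw [m3.eq_or_lt.resolve_right (k4 _ ⟨m1.comap π, m3.trans k2, e⟩)]
    have hc := cm_min hm
    obtain ⟨p, hp, p2, he⟩ := exp_min oK hc hm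
    rw [← ek] at oK hc he
    refine lift1 φ (QuotientGroup.map_surjective_of_surjective B A _ (by
      simpa using QuotientGroup.mk'_surjective A) _) hc hp p2 he oK ?_ (ih A k3 k2)
    rw [Subgroup.card_eq_card_quotient_mul_card_subgroup A] at h4
    exact (Nat.Coprime.pow_left 2 (Nat.coprime_two_left.2 oA)).dvd_of_dvd_mul_right h4

end Pool.Agent.SQO
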