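import Pool.Agent.MP_f56020_al.Main

/-! A harmonious ordering of the cube `(ℤ / p) ^ d` that alternates between two colours. -/

namespace Pool.Agent.SQO

open Multiset Function Pool.Agent.SQ

theorem chain' {I G : Type*} {op : G → G → G} {op' : I → I → I} {α β γ : I → G}
    {V M : I → Multiset G} (good : I → Prop) (hL : ∀ u, Pth op (α u) (β u) (V u) (M u))
    (hγ : ∀ u v, good (op' u v) → op (β u) (α v) = γ (op' u v)) {s t : I} {W N : Multiset I}
    (h : Pth op' s t W N) (hN : ∀ x ∈ N, good x) :
    ∃ V', Pth op (α s) (β t) V' (({s} + W).bind M + N.map γ) ∧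
      {α s} + V' = ({s} + W).bind fun u => {α u} + V u := by
  induction h with
  | nil x => exact ⟨_, (hL x).cast rfl (by simp), by simp⟩
  | @cons x y z W N h ih =>
    obtain ⟨V', h1, h2⟩ := ih fun a ha => hN a (mem_add.2 (Or.inr ha))
    refine ⟨_, (((hL x).trans (Pth.edge op (β x) (α y))).trans h1).cast rfl ?_, ?_⟩
    · rw [add_bind {x}, singleton_bind, map_add, map_singleton, hγ _ _ (hN _ (by simp))]
      abel
    · rw [add_bind {x}, singleton_bind, ← h2]
      abel

theorem map_fsum {α β γ : Type*} (s : Finset γ) (f : α → β) (m : γ → Multiset α) :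
    (∑ i ∈ s, m i).map f = ∑ i ∈ s, (m i).map f := map_sum (mapAddMonoidHom f) m s

/-- product of the elements, and change of side -/
def op2 {K : Type*} [Group K] (a b : K × Bool) : K × Bool := (a.1 * b.1, a.2 != b.2)

/-- An ordering with distinct non-trivial consecutive products along which `par` alternates. -/
def SP (K : Type*) [Group K] [Finite K] (par : K → Bool) : Prop :=
  ∃ (s t : K × Bool) (W : Multiset (K × Bool)),
    Pth op2 s t W ((st fun g : K => g ≠ 1).map (·, true)) ∧ {s} + W = (al K).map fun x => (x, par x)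

theorem SP.equiv {K L : Type*} [Group K] [Finite K] [Group L] [Finite L] (e : K ≃* L)
    {par : L → Bool} (h : SP K fun x => par (e x)) : SP L par := by
  obtain ⟨s, t, W, P, h1⟩ := h
  have e1 : (st fun g : K => g ≠ 1).map e = st fun g : L => g ≠ 1 :=
    map_st e.injective fun b => ⟨fun h => ⟨e.symm b, by simpa using h, by simp⟩, by
      rintro ⟨a, ha, rfl⟩
      simpa using ha⟩
  have e2 : (al K).map e = al L := map_st e.injective fun b => by simpa using e.surjective b
  refine ⟨_, _, _, (P.map (op' := op2) (fun x => (e x.1, x.2)) (fun x => (e x.1, x.2))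
    fun a b => by simp [op2]).cast rfl (by rw [← e1, map_map, map_map]; rfl), ?_⟩
  rw [← e2, map_map, ← map_singleton (fun x : K × Bool => (e x.1, x.2)), ← Multiset.map_add, h1,
    map_map]
  rfl

theorem sp_step {A : Type*} [CommGroup A] [Finite A] {h : ℕ} (hp : (2 * h + 1).Prime)
    (φ : A →* Multiplicative (ZMod (2 * h + 1))) (ho : Odd (Nat.card φ.ker)) {t : A}
    (ht : φ t = Multiplicative.ofAdd 1) {par : A → Bool} {par' : φ.ker → Bool}
    (hr : ∀ u : φ.ker, ∀ i < 2 * h + 1, par (u * t ^ i * (t ^ h)⁻¹) = (par' u != decide (Odd i)))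
    (hK : SP φ.ker par') : SP A par := by
  have : Fact (2 * h + 1).Prime := ⟨hp⟩
  obtain ⟨s0, t0, W, P, h1⟩ := hK
  let g : φ.ker × Bool → ℕ → A × Bool := fun u i => (u.1 * t ^ i * (t ^ h)⁻¹, u.2 != decide (Odd i))
  obtain ⟨V', k1, k2⟩ := chain' (op := op2) (α := fun u => g u 0) (β := fun u => g u (0 + 2 * h))
    (γ := fun x => ((x.1 : A), x.2)) (fun _ => True) (fun u => Pth.seq op2 (g u) 0 (2 * h))
    (fun u v _ => by
      simp only [g, op2, zero_add, two_mul, pow_add, pow_zero, mul_one, ← mul_assoc,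
        mul_inv_cancel_right, Subgroup.coe_mul]
      rw [mul_right_comm _ (t ^ h), mul_inv_cancel_right]
      simp [Nat.not_odd_iff_even.2 (Even.add_self h)]) P fun _ _ => trivial
  have e1 : ∀ u, {g u 0} + ∑ j ∈ Finset.range (2 * h), ({g u (0 + j + 1)} : Multiset _)
      = ∑ j ∈ Finset.range (2 * h + 1), {g u j} := fun u => by
    rw [Finset.sum_range_succ', add_comm]
    simp
  simp only [e1] at k2
  have fb : ∀ (a : A) (f : φ.ker → φ.ker), Injective f →
      ((al φ.ker).map fun u => (f u : A) * a) = st fun x => (φ x).toAdd = (φ a).toAdd :=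
    fun a f hf => by simpa using (cos_bij φ.ker.subtype 1 a hf).trans (cos_ker φ 1 a)
  have c0 : ((2 * h : ℕ) : ZMod (2 * h + 1)) = -1 := by
    rw [eq_neg_iff_add_eq_zero]
    exact_mod_cast ZMod.natCast_self (2 * h + 1)
  refine ⟨_, _, V', k1.cast rfl ?_, ?_⟩
  · have h2 : (2 : ZMod (2 * h + 1)) ≠ 0 := fun e => by
      have := Nat.le_of_dvd two_pos ((ZMod.natCast_eq_zero_iff 2 _).1 (by exact_mod_cast e))
      have := hp.two_le
      omega
    have e2 : (∑ i ∈ Finset.range (2 * h), {2 * ((i + 1 : ℕ) : ZMod (2 * h + 1))} : Multiset _)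
        = st (· ≠ 0) := by
      refine seq_eq_st _ _ (fun i hi j hj e => ?_) (fun i hi => mul_ne_zero h2 fun e => ?_) ?_
      · have := cast_inj (by omega) (by omega) (mul_left_cancel₀ h2 e)
        omega
      · have := Nat.le_of_dvd (by omega) ((ZMod.natCast_eq_zero_iff _ _).1 e)
        omega
      · have := card_ne (0 : ZMod (2 * h + 1))
        rw [Nat.card_zmod] at this
        omega
    rw [← nz_add φ, Multiset.map_add, add_comm, map_map, map_map]
    congr 1
    rw [bind_sum, show out φ = _ from (sum_fib (fun a => (φ a).toAdd) _ _ _ e2).symm, map_fsum, h1]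
    refine Finset.sum_congr rfl fun j _ => ?_
    have e3 : (φ (t ^ j * (t ^ h)⁻¹ * (t ^ (j + 1) * (t ^ h)⁻¹))).toAdd =
        2 * ((j + 1 : ℕ) : ZMod (2 * h + 1)) := by
      simp only [map_mul, map_inv, map_pow, ht, toAdd_mul, toAdd_inv, toAdd_pow, toAdd_ofAdd]
      push_cast at c0 ⊢
      simp only [nsmul_eq_mul, mul_one]
      push_cast
      linear_combination -c0
    rw [← e3, ← fb _ _ (sq_inj ho), map_map, map_map]
    refine map_congr rfl fun u _ => Prod.ext ?_ ?_
    · simp only [g, op2, zero_add, comp, Subgroup.coe_mul, mul_assoc, mul_left_comm]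
    · simp only [g, op2, zero_add, comp, Nat.odd_add_one]
      cases par' u <;> by_cases q : Odd j <;> simp only [q] <;> rfl
  · have e2 : (∑ i ∈ Finset.range (2 * h + 1), {((i : ℕ) : ZMod (2 * h + 1)) - h} : Multiset _)
        = al _ := by
      rw [← map_al (sub_left_injective (b := (h : ZMod (2 * h + 1)))), ← sum_zmod, sum_single,
        sum_single, map_map]
      rfl
    rw [k2, bind_sum, h1, show al A = _ from (sum_fib (fun a => (φ a).toAdd) _ _ _ e2).symm,
      map_fsum]
    refine Finset.sum_congr rfl fun j hj => ?_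
    have e3 : (φ (t ^ j * (t ^ h)⁻¹)).toAdd = (j : ZMod (2 * h + 1)) - h := by
      simp [ht, sub_eq_add_neg]
    rw [← e3, ← fb _ _ injective_id, map_map, map_map]
    refine map_congr rfl fun u _ => ?_
    simp only [g, comp, id, ← mul_assoc, hr u j (Finset.mem_range.1 hj)]

/-- the colouring of the cube as a chessboard -/
def chess (h : ℕ) {d : ℕ} (x : Fin d → ZMod (2 * h + 1)) : Bool :=
  decide (Odd (∑ k, (x k + h).val))

theorem chess_smul (h : ℕ) {d : ℕ} (e : Fin d → ℤˣ) (x : Fin d → ZMod (2 * h + 1)) :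
    chess h (e • x) = chess h x := by
  have k : ∀ a : ZMod (2 * h + 1), (-a + h).val % 2 = (a + h).val % 2 := fun a => by
    have h1 := (a + h).val_lt
    have e : -a + h = ((2 * h - (a + h).val : ℕ) : ZMod (2 * h + 1)) := by
      rw [Nat.cast_sub (by omega), ZMod.natCast_zmod_val]
      push_cast
      ring
    rw [e, ZMod.val_cast_of_lt (by omega)]
    omega
  simp only [chess, Nat.odd_iff]
  rw [Finset.sum_nat_mod, Finset.sum_nat_mod _ _ fun k => (x k + h).val]
  congr 3
  refine Finset.sum_congr rfl fun i _ => ?_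
  rcases Int.units_eq_one_or (e i) with q | q <;> simp [q, k]

theorem sp_cube {h : ℕ} (hp : (2 * h + 1).Prime) (d : ℕ) :
    SP (Multiplicative (Fin d → ZMod (2 * h + 1))) fun x => chess h x.toAdd := by
  induction d with
  | zero =>
    refine ⟨(1, false), (1, false), 0, (Pth.nil _).cast rfl ?_, ?_⟩
    · rw [eq_comm, map_eq_zero]
      exact eq_zero_of_forall_notMem fun a ha => mem_st.1 ha (Subsingleton.elim _ _)
    · rw [← show ({1} : Multiset (Multiplicative (Fin 0 → ZMod (2 * h + 1)))) = al _ from
        eq_st (by simp) fun a => by simp [Subsingleton.elim a 1]]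
      simp [chess]
  | succ d ih =>
    let φ : Multiplicative (Fin (d + 1) → ZMod (2 * h + 1)) →* Multiplicative (ZMod (2 * h + 1)) :=
      AddMonoidHom.toMultiplicative (Pi.evalAddMonoidHom _ 0)
    let e : φ.ker ≃* Multiplicative (Fin d → ZMod (2 * h + 1)) :=
      { toFun := fun x => Multiplicative.ofAdd (Fin.tail x.1.toAdd)
        invFun := fun y => ⟨Multiplicative.ofAdd (Fin.cons 0 y.toAdd), rfl⟩
        left_inv := fun x => Subtype.ext (by
          have : x.1.toAdd 0 = 0 := x.2
          change Multiplicative.ofAdd (Fin.cons 0 (Fin.tail x.1.toAdd)) = x.1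
          rw [← this, Fin.cons_self_tail, ofAdd_toAdd])
        right_inv := fun y => by simp
        map_mul' := fun _ _ => rfl }
    refine sp_step hp φ ?_ (t := Multiplicative.ofAdd (Pi.single 0 1)) (by simp [φ])
      (par' := fun u => chess h (e u).toAdd) (fun u i hi => ?_) (SP.equiv e.symm (by simpa using ih))
    · rw [Nat.card_congr e.toEquiv, Nat.card_congr Multiplicative.toAdd, Nat.card_pi]
      simpa using Odd.pow (odd_two_mul_add_one h)
    · have u0 : u.1.toAdd 0 = 0 := u.2
      have e1 : ∀ k, (u.1 * Multiplicative.ofAdd (Pi.single 0 1) ^ i *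
          (Multiplicative.ofAdd (Pi.single 0 1) ^ h)⁻¹).toAdd k + (h : ZMod (2 * h + 1)) =
            Fin.cons (α := fun _ => ZMod (2 * h + 1)) i (fun k => u.1.toAdd k.succ + h) k :=
        fun k => by refine Fin.cases ?_ (fun k => ?_) k <;> simp [u0]
      simp only [chess, e1, Fin.sum_univ_succ, Fin.cons_zero, Fin.cons_succ, ZMod.val_cast_of_lt hi,
        Nat.odd_add']
      change _ = (decide (Odd (∑ k : Fin d, (u.1.toAdd k.succ + h).val)) != _)
      generalize (∑ k : Fin d, (u.1.toAdd k.succ + (h : ZMod (2 * h + 1))).val) = a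
      by_cases q : Odd a <;> by_cases q' : Odd i <;> simp [q, q', ← Nat.not_odd_iff_even]

end Pool.Agent.SQO
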