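import Pool.Agent.MP_f56020_al.O1.Lift

/-! Lists and walks. -/

namespace Pool.Agent.SQO

open Multiset Function Pool.Agent.SQ

variable {G : Type*} [Group G] [Finite G]

theorem to_list (h : SG G) : ∃ l : List G, l.Nodup ∧ (∀ g : G, g ∈ l) ∧
    ∀ i j : ℕ, i < j → j < l.length → (l.take (i + 1)).prod ≠ (l.take (j + 1)).prod := by
  obtain ⟨x, y, V, p, hV⟩ := h
  obtain ⟨m, h1, h2⟩ := p.toList
  have h3 : (((1 : G) :: m : List G) : Multiset G) = al G := by
    rw [← one_add_nz, ← h1]
    rfl
  have h4 : ((List.ofFn fun i : Fin (m.length + 1) => x * ((1 :: m).take (i + 1)).prod :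
      List G) : Multiset G) = al G := by
    rw [← hV, ← h2, List.ofFn_succ]
    simp
  refine ⟨1 :: m, coe_nodup.1 (h3 ▸ nodup_st _), fun g => ?_, fun i j hij hj e => ?_⟩
  · rw [← mem_coe, h3]
    exact mem_st.2 trivial
  · have h0 : (al G).Nodup := nodup_st _
    rw [← h4] at h0
    have h5 := List.nodup_ofFn.1 (coe_nodup.1 h0)
    have h6 := @h5 ⟨i, hij.trans hj⟩ ⟨j, hj⟩ (congrArg (x * ·) e)
    exact hij.ne (congrArg Fin.val h6)

theorem of_list {l : List G} (h1 : l.Nodup) (h2 : ∀ g : G, g ∈ l)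
    (h3 : ∀ i j : ℕ, i < j → j < l.length → (l.take (i + 1)).prod ≠ (l.take (j + 1)).prod) :
    SG G := by
  have hc : Nat.card G = l.length := by
    rw [← card_al, ← show (l : Multiset G) = al G from eq_st (coe_nodup.2 h1) fun a => by simp [h2],
      coe_card]
  obtain ⟨n, hn⟩ : ∃ n, l.length = n + 1 := ⟨l.length - 1, by
    have := List.length_pos_of_mem (h2 1)
    omega⟩
  have e : ∀ j, (hj : j < n) → ld (l.take (0 + j + 1)).prod (l.take (0 + j + 1 + 1)).prod =
      l[j + 1] := fun j hj => by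
    rw [zero_add, List.prod_take_succ l (j + 1) (by omega), ld, inv_mul_cancel_left]
  refine ⟨_, _, _, (Pth.seq ld (fun i => (l.take (i + 1)).prod) 0 n).cast rfl ?_, ?_⟩
  · refine seq_eq_st _ _ (fun i hi j hj q => ?_) (fun i hi q => ?_) ?_
    · rw [e i hi, e j hj] at q
      have := h1.getElem_inj_iff.1 q
      omega
    · exact h3 _ _ (by omega) (by omega) (inv_mul_eq_one.1 q)
    · have := card_ne (1 : G)
      omega
  · refine Eq.trans ?_ (seq_eq_st (fun i => (l.take (i + 1)).prod) (n + 1) (fun i hi j hj q => ?_)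
      (fun _ _ => trivial) (by rw [card_al]; omega))
    · rw [Finset.sum_range_succ' _ n, add_comm]
      simp
    · rcases lt_trichotomy i j with c | c | c
      · exact absurd q (h3 i j c (by omega))
      · exact c
      · exact absurd q.symm (h3 j i c (by omega))

end Pool.Agent.SQO
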