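import Pool.Agent.MP_f56020_al.O1.Sym

/-! A sequencing of the quotient is run forwards and backwards. -/

namespace Pool.Agent.SQO

open Multiset Function Pool.Agent.SQ

variable {G Q : Type*} [Group G] [Finite G] [Group Q]

/-- the fibre over `q` -/
noncomputable def fib (φ : G →* Q) (q : Q) : Multiset G := st fun g => φ g = q

theorem bind_fib [Finite Q] (φ : G →* Q) (p : Q → Prop) :
    (st p).bind (fib φ) = st fun g => p (φ g) :=
  sum_fib φ (Set.toFinite {a | p a}).toFinset id p (by rw [sum_single, map_id]; rfl)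

theorem fib_eq (φ : G →* Q) (a b : G) {f : φ.ker → φ.ker} (hf : Injective f) :
    ((al φ.ker).map fun u => a * f u * b) = fib φ (φ a * φ b) :=
  (cos_bij φ.ker.subtype a b hf).trans (cos_ker φ a b)

variable {E : Type*} [CommGroup E]

/-- the label of the lifted step -/
def lab (φ : G →* Q) (s : Q → G) (f : φ.ker → φ.ker) (q : Q) (v : φ.ker) : G :=
  (v : G)⁻¹ * s q * f v

theorem strand (φ : G →* Q) {s : Q → G} (hs : ∀ q, φ (s q) = q) (ρ : E →* Equiv.Perm φ.ker)
    (ε : Bool → Q → E) {A B : Multiset φ.ker} (hA : ∀ e, A.map (ρ e) = A)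
    (hB : ∀ e, B.map (ρ e) = B) (hAB : A + B = al _) {x y : Q} {V M : Multiset Q}
    (h : Pth ld x y V M) (x' : G) (hx : φ x' = x) :
    ∃ (y' : G) (Vf Mf : Bool → φ.ker → Multiset G),
      (∀ b (v : φ.ker), Pth ld (x' * v) (y' * ρ (M.map (ε b)).prod v) (Vf b v) (Mf b v)) ∧
      A.bind (Vf false) + B.bind (Vf true) = V.bind (fib φ) ∧
      ∀ b (W : Multiset φ.ker), (∀ e, W.map (ρ e) = W) →
        W.bind (Mf b) = M.bind fun q => W.map (lab φ s (ρ (ε b q)) q) := by
  induction h generalizing x' with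
  | nil x => exact ⟨x', fun _ _ => 0, fun _ _ => 0, fun b v => by simpa using Pth.nil _,
      by simp, by simp⟩
  | @cons x y z V M h ih =>
    have hy : φ (x' * s (ld x y)) = y := by simp [hs, hx, ld]
    obtain ⟨y', Vf, Mf, h1, h2, h3⟩ := ih _ hy
    refine ⟨y', fun b v => {x' * s (ld x y) * ρ (ε b (ld x y)) v} +
      Vf b (ρ (ε b (ld x y)) v), fun b v => {lab φ s (ρ (ε b (ld x y))) (ld x y) v} +
      Mf b (ρ (ε b (ld x y)) v), fun b v => ?_, ?_, fun b W hW => ?_⟩
    · rw [Multiset.map_add, prod_add, map_singleton, prod_singleton, mul_comm, map_mul]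
      exact (Pth.cons (x' * v) (h1 _ _)).cast rfl (by simp [lab, ld, mul_assoc])
    · have e1 := fib_eq φ (x' * s (ld x y)) 1 injective_id
      simp only [mul_one, map_one, hy, id] at e1
      rw [← Multiset.bind_map A fun v : φ.ker => {x' * s (ld x y) * v} + Vf false v,
        ← Multiset.bind_map B fun v : φ.ker => {x' * s (ld x y) * v} + Vf true v, hA,
        hB, bind_add, bind_add, add_add_add_comm, h2, ← add_bind, hAB,
        bind_singleton, e1, add_bind, singleton_bind]
    · rw [bind_add, add_bind, singleton_bind, bind_singleton, ← Multiset.bind_map, hW, h3 b W hW]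

theorem zig [Finite Q] (φ : G →* Q) {par : φ.ker → Bool} (hK : SP φ.ker par) {s : Q → G}
    (hs : ∀ q, φ (s q) = q) (hs' : ∀ q, s q⁻¹ = (s q)⁻¹) (ρ : E →* Equiv.Perm φ.ker)
    (hρ : ∀ e v, par (ρ e v) = par v) (h2 : ∀ e : E, e * e = 1) {ε : Q → E}
    (hl : ∀ q, Injective (lab φ s (ρ (ε q)) q))
    (ho : ∀ v, ρ ((st fun q : Q => q ≠ 1).map ε).prod v = v⁻¹) (h : SG Q) : SG G := by
  obtain ⟨x, y, V, p, hV⟩ := h
  have hW : ∀ (b : Bool) e, (st (par · = b)).map (ρ e) = st (par · = b) := fun b e =>
    map_st (ρ e).injective fun v => ⟨fun h => ⟨(ρ e).symm v, by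
      rw [← hρ e, Equiv.apply_symm_apply, h], by simp⟩, by
        rintro ⟨a, ha, rfl⟩
        rw [hρ, ha]⟩
  have hAB : st (par · = false) + st (par · = true) = al φ.ker := st_add (by simp) (by simp)
  obtain ⟨s0, t0, W, P, k1⟩ := hK
  have hU : {s0} + W = (st (par · = false)).map (·, false) + (st (par · = true)).map (·, true) := by
    rw [k1, ← hAB, Multiset.map_add]
    congr 1 <;> refine Multiset.map_congr rfl fun u hu => ?_ <;> rw [mem_st.1 hu]
  have hA := hW false
  have hB := hW true
  generalize st (par · = false) = A at hA hAB hU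
  generalize st (par · = true) = B at hB hAB hU
  have hB' : B.map (·⁻¹) = B := (map_congr rfl fun v _ => (ho v).symm).trans (hB _)
  obtain ⟨y', Vf, Mf, h1, h3, h4⟩ := strand φ hs ρ (fun b q => ε (if b then q⁻¹ else q)) hA hB hAB
    p _ (hs x)
  have ho' : ∀ (b : Bool) v, ρ ((st fun q : Q => q ≠ 1).map fun q =>
      ε (if b then q⁻¹ else q)).prod v = v⁻¹ := by
    rintro (_ | _)
    · simpa using ho
    · rw [← nz_inv, map_map] at ho
      simpa using ho
  simp only [ho'] at h1
  choose Vb b1 b2 using fun v => (h1 true v).rev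
  obtain ⟨V', q1, q2⟩ := chain' (I := φ.ker × Bool) (G := G) (op := ld)
    (α := fun u => (if u.2 then y' else s x) * u.1)
    (β := fun u => (if u.2 then s x else y') * (u.1⁻¹ : φ.ker)) (γ := fun u => (u.1 : G))
    (V := fun u => if u.2 then Vb u.1⁻¹ else Vf false u.1)
    (M := fun u => if u.2 then (Mf true u.1⁻¹).map (·⁻¹) else Mf false u.1) (·.2 = true)
    (fun u => by
      obtain ⟨u, _ | _⟩ := u
      · simpa using h1 false u
      · simpa using b1 u⁻¹)
    (fun u v => by
      obtain ⟨u, _ | _⟩ := u <;> obtain ⟨v, _ | _⟩ := v <;> simp [op2, ld]) P (by simp)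
  refine ⟨_, _, V', q1.cast rfl ?_, ?_⟩
  · have e1 : ∀ q, (al φ.ker).map (lab φ s (ρ (ε q)) q) = fib φ q := fun q => by
      have := fib_eq φ (s q) 1 (f := fun v => ⟨(s q)⁻¹ * lab φ s (ρ (ε q)) q v, by
        simp [lab, MonoidHom.mem_ker, MonoidHom.mem_ker.1 (Subtype.property _)]⟩)
        fun u v e => hl q (mul_left_cancel (congrArg Subtype.val e))
      simpa [hs] using this
    have e2 : (B.bind fun u => (Mf true u⁻¹).map (·⁻¹)) =
        (st fun q : Q => q ≠ 1).bind fun q => B.map (lab φ s (ρ (ε q)) q) := by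
      rw [← Multiset.map_bind, ← Multiset.bind_map B (Mf true), hB', h4 true B hB, Multiset.map_bind]
      conv_rhs => rw [← nz_inv, Multiset.bind_map]
      refine bind_congr fun q _ => ?_
      conv_rhs => rw [← hB (ε q⁻¹)]
      rw [map_map, map_map]
      refine map_congr rfl fun u _ => ?_
      have : ρ (ε q⁻¹) (ρ (ε q⁻¹) u) = u := by rw [← Equiv.Perm.mul_apply, ← map_mul, h2]; simp
      simp [lab, hs', this, mul_assoc]
    have e3 : A.bind (Mf false) =
        (st fun q : Q => q ≠ 1).bind fun q => A.map (lab φ s (ρ (ε q)) q) := h4 false A hA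
    rw [← nz_add φ, add_comm, map_map, hU, add_bind, Multiset.bind_map, Multiset.bind_map]
    simp only [if_true, Bool.false_eq_true, if_false]
    rw [e2, e3, ← bind_add]
    simp only [← Multiset.map_add, hAB, e1]
    rw [bind_fib]
    rfl
  · have e1 := fib_eq φ (s x) 1 injective_id
    have e2 : (B.bind fun u => {y' * u} + Vb u⁻¹) = B.bind fun u => {s x * u} + Vf true u := by
      conv_lhs => rw [← hB', Multiset.bind_map]
      refine bind_congr fun u _ => ?_
      rw [inv_inv, add_comm, b2, add_comm]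
    rw [q2, hU, add_bind, Multiset.bind_map, Multiset.bind_map]
    simp only [if_true, Bool.false_eq_true, if_false]
    simp only [mul_one, map_one, hs, id] at e1
    rw [e2, bind_add, bind_add, add_add_add_comm, h3, ← add_bind, hAB,
      bind_singleton, e1, ← singleton_bind x (fib φ), ← add_bind, hV, bind_fib]

end Pool.Agent.SQO
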